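import Pool.Agent.J4H16.LI.Stm4

/-! Project LI, fourth part: (BE), from Bernstein's inequality for the quotient by `X`. -/

open Set Polynomial

namespace Pool.Agent.J4H94.LI2

theorem t_BE : Pool.Agent.J4H16.LI.S_QB → Pool.Agent.J4H16.LI.S_BE := by
  intro hQB n p hn h0 M R hR hM hp
  set q : ℝ[X] := p.divX with hq
  have hpq : p = q * X := by
    have := divX_mul_X_add p
    rw [← coeff_zero_eq_eval_zero] at h0
    rw [h0, C_0, add_zero] at this
    exact this.symm
  have hev : ∀ x, p.eval x = q.eval x * x := by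
    intro x
    conv_lhs => rw [hpq]
    simp
  have hder : ∀ x, p.derivative.eval x = q.derivative.eval x * x + q.eval x := by
    intro x
    conv_lhs => rw [hpq]
    simp
  have hqn : q.natDegree ≤ n := by
    rw [hq, natDegree_divX_eq_natDegree_tsub_one]
    omega
  have hqb' : ∀ x, |x| ≤ R → x ≠ 0 → |q.eval x| ≤ M := by
    intro x hx hx0
    have h := hp x hx
    rw [hev, abs_mul] at h
    exact le_of_mul_le_mul_right h (abs_pos.2 hx0)
  have hq0 : |q.eval 0| ≤ M := by
    have hc : Continuous fun x : ℝ => |q.eval x| := (q.continuous).abs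
    have h1 : Filter.Tendsto (fun x : ℝ => |q.eval x|) (nhdsWithin 0 (Set.Ioi 0))
        (nhds |q.eval 0|) := hc.continuousAt.tendsto.mono_left nhdsWithin_le_nhds
    refine le_of_tendsto h1 ?_
    have h2 : Set.Ioo (0 : ℝ) R ∈ nhdsWithin (0 : ℝ) (Set.Ioi 0) := Ioo_mem_nhdsGT hR
    filter_upwards [h2] with x hx
    exact hqb' x (by rw [abs_of_pos hx.1]; exact hx.2.le) hx.1.ne'
  have hqb : ∀ x, |x| ≤ R → |q.eval x| ≤ M := by
    intro x hx
    by_cases h : x = 0
    · rw [h]; exact hq0
    · exact hqb' x hx h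
  have hqd := hQB n q hqn M R hR hM hqb
  intro x hx
  have hmv : |q.eval x - q.eval 0| ≤ 2 * n * M / R * |x| := by
    have h := (convex_Icc (-(R / 2)) (R / 2)).norm_image_sub_le_of_norm_hasDerivWithin_le
      (f := fun x => q.eval x) (f' := fun x => q.derivative.eval x) (C := 2 * n * M / R)
      (x := 0) (y := x)
      (fun z _ => (q.hasDerivAt z).hasDerivWithinAt)
      (fun z hz => by
        rw [Real.norm_eq_abs]
        exact hqd z (abs_le.2 ⟨hz.1, hz.2⟩))
      ⟨by linarith, by linarith⟩ ⟨(abs_le.1 hx).1, (abs_le.1 hx).2⟩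
    simpa [Real.norm_eq_abs] using h
  have h1 := hqd x hx
  rw [hder x, hder 0, mul_zero, zero_add]
  calc |q.derivative.eval x * x + q.eval x - q.eval 0|
      = |q.derivative.eval x * x + (q.eval x - q.eval 0)| := by ring_nf
    _ ≤ |q.derivative.eval x * x| + |q.eval x - q.eval 0| := abs_add_le _ _
    _ ≤ 2 * n * M / R * |x| + 2 * n * M / R * |x| := by
        rw [abs_mul]
        exact add_le_add (mul_le_mul_of_nonneg_right h1 (abs_nonneg _)) hmv
    _ = 4 * n * M / R * |x| := by ring

end Pool.Agent.J4H94.LI2
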