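import Pool.Agent.J4H16.LI.Stm2

/-! Project LI, second part: (MK), a consequence of Markov's inequality. -/

open Set Polynomial

namespace Pool.Agent.J4H94.LI2

lemma abs_deriv_le {k : ℕ} {P : ℝ[X]} (hdeg : P.degree ≤ k)
    (hb : ∀ x ∈ Set.Icc (-1 : ℝ) 1, |P.eval x| ≤ 1) : (derivative P).eval 1 ≤ (k : ℝ) ^ 2 := by
  have h := Polynomial.Chebyshev.eval_iterate_derivative_le_of_forall_abs_le_one (n := k) (k := 1)
    (le_refl (1 : ℝ)) hdeg hb
  simp only [Function.iterate_one] at h
  refine h.trans (le_of_eq ?_)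
  rw [Polynomial.Chebyshev.T_derivative_eq_U]
  simp
  ring

lemma endp {k : ℕ} {P : ℝ[X]} (hdeg : P.natDegree ≤ k) {a c M : ℝ} (hM : 0 < M)
    (hb : ∀ x ∈ Set.uIcc a c, |P.eval x| ≤ M) :
    |(derivative P).eval c| * |c - a| ≤ 2 * k ^ 2 * M := by
  have key : ∀ ε : ℝ, |ε| = 1 → ε * ((derivative P).eval c * (c - a)) ≤ 2 * k ^ 2 * M := by
    intro ε hε
    set Q : ℝ[X] := C (ε / M) * P.comp (C ((c + a) / 2) + C ((c - a) / 2) * X) with hQ
    have hQd : Q.degree ≤ k := by
      apply degree_le_of_natDegree_le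
      refine (natDegree_C_mul_le _ _).trans ?_
      refine natDegree_comp_le.trans ?_
      have h1 : (C ((c + a) / 2) + C ((c - a) / 2) * X : ℝ[X]).natDegree ≤ 1 := by
        refine (natDegree_add_le _ _).trans ?_
        rw [natDegree_C]
        exact max_le (by norm_num) ((natDegree_C_mul_le _ _).trans natDegree_X_le)
      calc P.natDegree * (C ((c + a) / 2) + C ((c - a) / 2) * X : ℝ[X]).natDegree
          ≤ k * 1 := Nat.mul_le_mul hdeg h1
        _ = k := mul_one _
    have hQb : ∀ x ∈ Set.Icc (-1 : ℝ) 1, |Q.eval x| ≤ 1 := by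
      intro x hx
      have h1 : (c + a) / 2 + (c - a) / 2 * x ∈ Set.uIcc a c := by
        rw [Set.mem_uIcc]
        rcases le_total a c with h | h
        · left
          constructor <;> nlinarith [hx.1, hx.2]
        · right
          constructor <;> nlinarith [hx.1, hx.2]
      have h2 := hb _ h1
      rw [hQ]
      simp only [eval_mul, eval_C, eval_comp, eval_add, eval_X]
      rw [abs_mul, abs_div, hε, abs_of_pos hM, div_mul_eq_mul_div, one_mul, div_le_one hM]
      exact h2
    have h := abs_deriv_le hQd hQb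
    have e : (derivative Q).eval 1 = ε / M * ((c - a) / 2) * (derivative P).eval c := by
      rw [hQ, derivative_C_mul, derivative_comp]
      simp only [eval_mul, eval_C, eval_comp, eval_add, eval_X, derivative_add, derivative_C,
        derivative_mul, derivative_X, zero_add, zero_mul, mul_one]
      have : (c + a) / 2 + (c - a) / 2 = c := by ring
      rw [this]
      ring
    rw [e] at h
    have h2 : ε * ((derivative P).eval c * (c - a)) =
        (ε / M * ((c - a) / 2) * (derivative P).eval c) * (2 * M) := by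
      field_simp
    rw [h2]
    calc (ε / M * ((c - a) / 2) * (derivative P).eval c) * (2 * M)
        ≤ (k : ℝ) ^ 2 * (2 * M) := mul_le_mul_of_nonneg_right h (by positivity)
      _ = 2 * k ^ 2 * M := by ring
  rw [← abs_mul]
  rcases abs_cases ((derivative P).eval c * (c - a)) with h | h
  · rw [h.1]
    have := key 1 (by simp)
    linarith
  · rw [h.1]
    have := key (-1) (by simp)
    linarith

lemma endp' {k : ℕ} {P : ℝ[X]} (hdeg : P.natDegree ≤ k) {a c M : ℝ} (hM : 0 ≤ M)
    (hb : ∀ x ∈ Set.uIcc a c, |P.eval x| ≤ M) :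
    |(derivative P).eval c| * |c - a| ≤ 2 * k ^ 2 * M := by
  apply le_of_forall_pos_le_add
  intro ε hε
  have hk : (0 : ℝ) < 2 * k ^ 2 + 1 := by positivity
  have hδ : 0 < ε / (2 * k ^ 2 + 1) := div_pos hε hk
  have h := endp hdeg (a := a) (c := c) (M := M + ε / (2 * k ^ 2 + 1)) (by linarith)
    (fun x hx => (hb x hx).trans (by linarith))
  refine h.trans ?_
  have : (2 : ℝ) * k ^ 2 * (ε / (2 * k ^ 2 + 1)) ≤ ε := by
    rw [mul_div_assoc', div_le_iff₀ hk]
    nlinarith [sq_nonneg (k : ℝ)]
  linarith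

theorem t_MK : Pool.Agent.J4H16.LI.S_MK := by
  intro n p hn h0 M R hR hM hp
  -- `p = X q`
  set q : ℝ[X] := p.divX with hq
  have hpq : p = q * X := by
    have := divX_mul_X_add p
    rw [← coeff_zero_eq_eval_zero] at h0
    rw [h0, C_0, add_zero] at this
    exact this.symm
  have hev : ∀ x, p.eval x = q.eval x * x := by
    intro x
    conv_lhs => rw [hpq]
    simp
  have hd0 : p.derivative.eval 0 = q.eval 0 := by
    conv_lhs => rw [hpq]
    simp
  have hqn : q.natDegree ≤ n := by
    rw [hq, natDegree_divX_eq_natDegree_tsub_one]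
    omega
  have hqb' : ∀ x, |x| ≤ R → x ≠ 0 → |q.eval x| ≤ M := by
    intro x hx hx0
    have h := hp x hx
    rw [hev, abs_mul] at h
    exact le_of_mul_le_mul_right h (abs_pos.2 hx0)
  have hq0 : |q.eval 0| ≤ M := by
    have hc : Continuous fun x : ℝ => |q.eval x| := (q.continuous).abs
    have h1 : Filter.Tendsto (fun x : ℝ => |q.eval x|) (nhdsWithin 0 (Set.Ioi 0))
        (nhds |q.eval 0|) := hc.continuousAt.tendsto.mono_left nhdsWithin_le_nhds
    refine le_of_tendsto h1 ?_
    have h2 : Set.Ioo (0 : ℝ) R ∈ nhdsWithin (0 : ℝ) (Set.Ioi 0) := Ioo_mem_nhdsGT hR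
    filter_upwards [h2] with x hx
    exact hqb' x (by rw [abs_of_pos hx.1]; exact hx.2.le) hx.1.ne'
  have hqb : ∀ x, |x| ≤ R → |q.eval x| ≤ M := by
    intro x hx
    by_cases h : x = 0
    · rw [h]; exact hq0
    · exact hqb' x hx h
  have hqd : ∀ x, |x| ≤ R → |q.derivative.eval x| ≤ 2 * n ^ 2 * M / R := by
    intro x hx
    rw [le_div_iff₀ hR]
    have hx' := abs_le.1 hx
    rcases le_total 0 x with h | h
    · have h1 := endp' hqn (a := -R) (c := x) hM (fun z hz => hqb z (by
        rw [Set.uIcc_of_le (by linarith)] at hz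
        rw [abs_le]
        exact ⟨hz.1, hz.2.trans hx'.2⟩))
      refine le_trans ?_ h1
      apply mul_le_mul_of_nonneg_left _ (abs_nonneg _)
      rw [abs_of_nonneg (by linarith)]
      linarith
    · have h1 := endp' hqn (a := R) (c := x) hM (fun z hz => hqb z (by
        rw [Set.uIcc_of_ge (by linarith)] at hz
        rw [abs_le]
        exact ⟨hx'.1.trans hz.1, hz.2⟩))
      refine le_trans ?_ h1
      apply mul_le_mul_of_nonneg_left _ (abs_nonneg _)
      rw [abs_of_nonpos (by linarith)]
      linarith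
  refine ⟨by rw [hd0]; exact hq0, ?_⟩
  intro x hx
  have hmv : |q.eval x - q.eval 0| ≤ 2 * n ^ 2 * M / R * |x| := by
    have h := (convex_Icc (-R) R).norm_image_sub_le_of_norm_hasDerivWithin_le
      (f := fun x => q.eval x) (f' := fun x => q.derivative.eval x) (C := 2 * n ^ 2 * M / R)
      (x := 0) (y := x)
      (fun z _ => (q.hasDerivAt z).hasDerivWithinAt)
      (fun z hz => by
        rw [Real.norm_eq_abs]
        exact hqd z (abs_le.2 ⟨hz.1, hz.2⟩))
      ⟨by linarith, hR.le⟩ ⟨(abs_le.1 hx).1, (abs_le.1 hx).2⟩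
    simpa [Real.norm_eq_abs] using h
  rw [hev, hd0, ← sub_mul, abs_mul]
  calc |q.eval x - q.eval 0| * |x| ≤ (2 * n ^ 2 * M / R * |x|) * |x| :=
        mul_le_mul_of_nonneg_right hmv (abs_nonneg _)
    _ = 2 * M * (n ^ 2 * |x| / R) * |x| := by ring

end Pool.Agent.J4H94.LI2
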